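import Mathlib
import Pool.Agent.H51.ProperA

set_option autoImplicit false

namespace Pool.Agent.Results.MP_0ca78d_co.Counter

/-- `G` has an edge, every edge lies on a cycle of each length `3 ≤ i ≤ k`, and every edge lies on
a Hamilton cycle -/
def EdgeProper {n : ℕ} (k : ℕ) (G : SimpleGraph (Fin n)) : Prop :=
  G.edgeSet.Nonempty ∧ ∀ e ∈ G.edgeSet,
    (∀ i, 3 ≤ i → i ≤ k → ∃ u, ∃ c : G.Walk u u, c.IsCycle ∧ c.length = i ∧ e ∈ c.edges) ∧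
    ∃ u, ∃ c : G.Walk u u, c.IsHamiltonianCycle ∧ e ∈ c.edges

theorem result : ¬ ∀ k : ℕ, 5 ≤ k → ∃ n₀ : ℕ, ∀ n : ℕ, n₀ ≤ n → ∀ G : SimpleGraph (Fin n),
    EdgeProper k G →
      ⌈((4 * (k : ℚ) - 9) * n) / (2 * (k : ℚ) - 4)⌉ ≤ (G.edgeSet.ncard : ℤ) := by
  intro h
  obtain ⟨t, ht⟩ := h 23 (by omega)
  have h1 := ht (40 * (t + 2)) (by omega) (Pool.Agent.H51.ProperA.GG t)
    ⟨Pool.Agent.H51.ProperA.nonempty t, fun e he =>
      ⟨fun i h3 h => Pool.Agent.H51.ProperA.short t e he i h3 h,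
        Pool.Agent.H51.ProperA.long t e he⟩⟩
  have h2 := Pool.Agent.H51.ProperA.ncard_le t
  rw [Int.ceil_le] at h1
  have h3 : (((Pool.Agent.H51.ProperA.GG t).edgeSet.ncard : ℕ) : ℚ) ≤ 79 * ((t : ℚ) + 2) := by
    exact_mod_cast h2
  push_cast at h1
  rw [div_le_iff₀ (by norm_num)] at h1
  have : (0 : ℚ) ≤ t := Nat.cast_nonneg t
  linarith

end Pool.Agent.Results.MP_0ca78d_co.Counter
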